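import Pool.Agent.Y582.EX.Gen

/-!
Under Martin's axiom for `κ` dense sets `Ext^n(Y, c₀) = 0` for all `n ≥ 2` and all Banach spaces
`Y` of density character at most `κ`.
-/

set_option autoImplicit false

namespace Pool.Agent.Y582.EX

open Cardinal Filter Topology Pool.Agent.W684 Pool.Agent.W684.FM
open scoped BoundedContinuousFunction ZeroAtInfty ENNReal

universe u v

theorem dense_sub_card (Ω : Type) [Infinite Ω] {X : Type v} [NormedAddCommGroup X]
    [NormedSpace ℝ X] (D : Set X) (hD : Dense D)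
    (hDc : #D ≤ Cardinal.lift.{v} #Ω) (Y : Submodule ℝ X) :
    ∃ D' : Set Y, Dense D' ∧ #D' ≤ Cardinal.lift.{v} #Ω := by
  obtain ⟨e, he⟩ := exists_denseG Ω D hD hDc
  obtain ⟨g, hg⟩ := exists_dense_subG e he Y
  refine ⟨Set.range g, ?_, ?_⟩
  · intro y
    rw [Metric.mem_closure_iff]
    intro ε hε
    obtain ⟨a, ha⟩ := hg y ε hε
    exact ⟨g a, ⟨a, rfl⟩, by rwa [dist_eq_norm]⟩
  · have h1 := Cardinal.mk_range_le_lift (f := g)
    have h2 : #(Ω × ℕ) = #Ω := by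
      rw [Cardinal.mk_prod, Cardinal.lift_id, Cardinal.lift_id, Cardinal.mk_nat]
      exact Cardinal.mul_aleph0_eq (Cardinal.aleph0_le_mk Ω)
    rw [h2] at h1
    simpa using h1

/-- cokernels of embeddings of spaces with the extension property have it as well -/
theorem extProp_step (Ω : Type) [Infinite Ω] {Γ₁ Γ₂ : Type v}
    (W : Submodule ℝ (lp (fun _ : Γ₂ => ℝ) ∞))
    (hWc : IsClosed (W : Set (lp (fun _ : Γ₂ => ℝ) ∞))) (q : lp (fun _ : Γ₁ => ℝ) ∞ →L[ℝ] W)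
    (hq : Function.Surjective q) (hker : ExtProp.{v, v} (Order.succ (Cardinal.lift.{v} #Ω))
      (LinearMap.ker q.toLinearMap)) :
    ExtProp.{v, v} (Order.succ (Cardinal.lift.{v} #Ω)) W := by
  intro X _ _ _ hX Y hY t
  have : CompleteSpace W := hWc.completeSpace_coe
  have : CompleteSpace Y := hY.completeSpace_coe
  obtain ⟨D, hD, hDc⟩ := hX
  obtain ⟨D', hD', hDc'⟩ := dense_sub_card Ω D hD (Order.lt_succ_iff.1 hDc) Y
  obtain ⟨F, hF⟩ := liftG Ω q hq hker D' hD' hDc' t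
  obtain ⟨T, hT⟩ := ext_linf Y F
  refine ⟨q.comp T, fun y => ?_⟩
  rw [ContinuousLinearMap.comp_apply, hT, hF]

/-- the cocycles of degree `n + 1` of an injective resolution -/
noncomputable def cyc (I : InjRes.{0, v} C₀(ℕ, ℝ)) (n : ℕ) :
    Submodule ℝ (lp (fun _ : I.Γ (n + 1) => ℝ) ∞) :=
  LinearMap.ker (show lp (fun _ : I.Γ (n + 1) => ℝ) ∞ →L[ℝ] lp (fun _ : I.Γ (n + 1 + 1) => ℝ) ∞ from
    I.d (n + 1)).toLinearMap

theorem mem_cyc (I : InjRes.{0, v} C₀(ℕ, ℝ)) (n : ℕ) (z : lp (fun _ : I.Γ (n + 1) => ℝ) ∞) :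
    z ∈ cyc I n ↔ ∃ x : lp (fun _ : I.Γ n => ℝ) ∞,
      (show lp (fun _ : I.Γ n => ℝ) ∞ →L[ℝ] lp (fun _ : I.Γ (n + 1) => ℝ) ∞ from I.d n) x = z :=
  I.exact_succ n z

theorem isClosed_cyc (I : InjRes.{0, v} C₀(ℕ, ℝ)) (n : ℕ) :
    IsClosed (cyc I n : Set (lp (fun _ : I.Γ (n + 1) => ℝ) ∞)) :=
  (show lp (fun _ : I.Γ (n + 1) => ℝ) ∞ →L[ℝ] lp (fun _ : I.Γ (n + 1 + 1) => ℝ) ∞ from
    I.d (n + 1)).isClosed_ker

/-- the differential as an operator onto the cocycles -/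
noncomputable def dif (I : InjRes.{0, v} C₀(ℕ, ℝ)) (n : ℕ) :
    lp (fun _ : I.Γ n => ℝ) ∞ →L[ℝ] cyc I n :=
  (show lp (fun _ : I.Γ n => ℝ) ∞ →L[ℝ] lp (fun _ : I.Γ (n + 1) => ℝ) ∞ from
    I.d n).codRestrict (cyc I n) fun x => (mem_cyc I n _).2 ⟨x, rfl⟩

theorem dif_surjective (I : InjRes.{0, v} C₀(ℕ, ℝ)) (n : ℕ) : Function.Surjective (dif I n) := by
  rintro ⟨y, hy⟩
  obtain ⟨x, hx⟩ := (mem_cyc I n y).1 hy
  exact ⟨x, Subtype.ext hx⟩

theorem ker_dif (I : InjRes.{0, v} C₀(ℕ, ℝ)) (n : ℕ) :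
    LinearMap.ker (dif I (n + 1)).toLinearMap = cyc I n := by
  ext z
  constructor
  · intro h
    exact congrArg Subtype.val (show dif I (n + 1) z = 0 from h)
  · intro h
    exact (Subtype.ext h : dif I (n + 1) z = 0)

theorem extProp_cyc (Ω : Type) [Infinite Ω] (hMA : MartinAxiomCard #Ω)
    (I : InjRes.{0, v} C₀(ℕ, ℝ)) (n : ℕ) :
    ExtProp.{v, v} (Order.succ (Cardinal.lift.{v} #Ω)) (cyc I n) := by
  induction n with
  | zero =>
    have hN : ExtProp.{v, 0} (Order.succ (Cardinal.lift.{v} #Ω)) (NStar →ᵇ ℝ) := by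
      intro X _ _ _ hX Z hZ t
      obtain ⟨T, hT, -⟩ := injG Ω hMA (lam := 4) (by norm_num) X hX Z hZ t
      exact ⟨T, hT⟩
    exact extProp_cosyzygy
      (show C₀(ℕ, ℝ) →L[ℝ] lp (fun _ : I.Γ 0 => ℝ) ∞ from I.aug)
      (show lp (fun _ : I.Γ 0 => ℝ) ∞ →L[ℝ] lp (fun _ : I.Γ 1 => ℝ) ∞ from I.d 0)
      hN I.aug_injective I.exact_zero (cyc I 0) (isClosed_cyc I 0) (mem_cyc I 0)
  | succ n ih =>
    refine extProp_step Ω (cyc I (n + 1)) (isClosed_cyc I (n + 1)) (dif I (n + 1))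
      (dif_surjective I (n + 1)) ?_
    rw [ker_dif]
    exact ih

theorem ext_all (Ω : Type) [Infinite Ω] (hMA : MartinAxiomCard #Ω) (I : InjRes.{0, v} C₀(ℕ, ℝ))
    (Y : Type v) [NormedAddCommGroup Y] [NormedSpace ℝ Y] [CompleteSpace Y] (D : Set Y)
    (hD : Dense D) (hDc : #D ≤ Cardinal.lift.{v} #Ω) (n : ℕ) : I.ExtSuccVanishes Y (n + 1) := by
  intro f hf
  have : CompleteSpace (cyc I (n + 1)) := (isClosed_cyc I (n + 1)).completeSpace_coe
  let g : Y →L[ℝ] lp (fun _ : I.Γ (n + 1 + 1) => ℝ) ∞ := f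
  obtain ⟨F, hF⟩ := liftG Ω (dif I (n + 1)) (dif_surjective I (n + 1)) (by
    rw [ker_dif]
    exact extProp_cyc Ω hMA I n) D hD hDc (g.codRestrict (cyc I (n + 1)) hf)
  exact ⟨F, fun y => congrArg Subtype.val (hF y)⟩

/-- the version with cardinals -/
theorem ext_card {κ : Cardinal.{0}} (hκ : ℵ₀ ≤ κ) (hMA : MartinAxiomCard κ)
    (I : InjRes.{0, 0} C₀(ℕ, ℝ)) (Y : Type) [NormedAddCommGroup Y] [NormedSpace ℝ Y]
    [CompleteSpace Y] (D : Set Y) (hD : Dense D) (hDc : #D ≤ κ) (n : ℕ) :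
    I.ExtSuccVanishes Y (n + 1) := by
  have hinf : Infinite κ.ord.ToType := by
    rw [Cardinal.infinite_iff, Cardinal.mk_ord_toType]
    exact hκ
  refine ext_all κ.ord.ToType (by rwa [Cardinal.mk_ord_toType]) I Y D hD ?_ n
  rw [Cardinal.mk_ord_toType, Cardinal.lift_id]
  exact hDc

theorem inj_card {κ : Cardinal.{0}} (hκ : ℵ₀ ≤ κ) (hMA : MartinAxiomCard κ) {lam : ℝ}
    (hlam : 3 < lam) :
    IsInjectiveFor.{u} lam (Order.succ (Cardinal.lift.{u} κ)) (NStar →ᵇ ℝ) := by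
  have hinf : Infinite κ.ord.ToType := by
    rw [Cardinal.infinite_iff, Cardinal.mk_ord_toType]
    exact hκ
  have h := injG.{u} κ.ord.ToType (by rwa [Cardinal.mk_ord_toType]) hlam
  rwa [Cardinal.mk_ord_toType] at h

theorem inj_continuum (hMA : ∀ κ < Cardinal.continuum.{0}, MartinAxiomCard κ) {lam : ℝ}
    (hlam : 3 < lam) : IsInjectiveFor.{u} lam Cardinal.continuum.{u} (NStar →ᵇ ℝ) := by
  intro X _ _ _ hX Y hY t
  obtain ⟨D, hD, hDc⟩ := hX
  have h0 : #D ≤ Cardinal.lift.{u} Cardinal.continuum.{0} := by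
    rw [Cardinal.lift_continuum]
    exact hDc.le
  obtain ⟨κ, hκ⟩ := Cardinal.mem_range_lift_of_le h0
  have h1 : κ < Cardinal.continuum.{0} := by
    rw [← Cardinal.lift_lt.{0, u}, hκ, Cardinal.lift_continuum]
    exact hDc
  have h2 : max κ ℵ₀ < Cardinal.continuum.{0} := max_lt h1 Cardinal.aleph0_lt_continuum
  refine inj_card (le_max_right κ ℵ₀) (hMA _ h2) hlam X ⟨D, hD, ?_⟩ Y hY t
  rw [Order.lt_succ_iff, ← hκ]
  exact Cardinal.lift_le.2 (le_max_left _ _)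

/-- `c₀(Γ)` has a dense set of size at most `κ` if `#Γ ≤ κ`, `κ` infinite -/
theorem dense_c0_card (Γ : Type v) [TopologicalSpace Γ] [DiscreteTopology Γ] {κ : Cardinal.{v}}
    (hκ : ℵ₀ ≤ κ) (hΓ : #Γ ≤ κ) :
    ∃ D : Set C₀(Γ, ℝ), Dense D ∧ #D ≤ κ := by
  classical
  -- unit vectors
  let e : Γ → C₀(Γ, ℝ) := fun γ =>
    ⟨⟨fun x => if x = γ then 1 else 0, continuous_of_discreteTopology⟩, by
      show Tendsto (fun x => if x = γ then (1 : ℝ) else 0) (cocompact Γ) (𝓝 0)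
      rw [cocompact_eq_cofinite]
      apply tendsto_const_nhds.congr'
      have : ∀ᶠ x in cofinite, x ∉ ({γ} : Set Γ) := (Set.finite_singleton γ).eventually_cofinite_notMem
      filter_upwards [this] with x hx
      have : x ≠ γ := hx
      simp [this]⟩
  have he : ∀ γ x, e γ x = if x = γ then 1 else 0 := fun γ x => rfl
  let r : (Γ →₀ ℚ) → C₀(Γ, ℝ) := fun w => w.sum fun γ a => (a : ℝ) • e γ
  have hr : ∀ w x, r w x = (w x : ℝ) := by
    intro w x
    have h1 : r w x = ∑ γ ∈ w.support, (w γ : ℝ) * (if x = γ then 1 else 0) := by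
      simp only [r, Finsupp.sum]
      induction w.support using Finset.induction_on with
      | empty => simp
      | insert a s ha ih =>
        rw [Finset.sum_insert ha, Finset.sum_insert ha, ← ih]
        simp [he]
    rw [h1]
    simp only [mul_ite, mul_one, mul_zero, Finset.sum_ite_eq]
    split_ifs with h
    · rfl
    · rw [Finsupp.notMem_support_iff.1 h]
      simp
  refine ⟨Set.range r, ?_, ?_⟩
  · intro f
    rw [Metric.mem_closure_iff]
    intro ε hε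
    have h1 : Tendsto f (cocompact Γ) (𝓝 0) := f.zero_at_infty'
    rw [cocompact_eq_cofinite, Metric.tendsto_nhds] at h1
    have h2 : {x | ¬ dist (f x) 0 < ε / 2}.Finite := h1 (ε / 2) (half_pos hε)
    have hq : ∀ x, ∃ q : ℚ, |f x - q| < ε / 2 := by
      intro x
      obtain ⟨q, hq⟩ := exists_rat_btwn (show f x - ε / 2 < f x by linarith)
      exact ⟨q, by rw [abs_lt]; constructor <;> linarith [hq.1, hq.2]⟩
    choose q hq using hq
    let w : Γ →₀ ℚ := Finsupp.onFinset h2.toFinset (fun x => if dist (f x) 0 < ε / 2 then 0 else q x)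
      (by
        intro x hx
        rw [Set.Finite.mem_toFinset]
        intro h
        exact hx (if_pos h))
    refine ⟨r w, ⟨w, rfl⟩, ?_⟩
    have h3 : ∀ x, |(f - r w) x| ≤ ε / 2 := by
      intro x
      rw [ZeroAtInftyContinuousMap.sub_apply, hr]
      by_cases h : dist (f x) 0 < ε / 2
      · have : w x = 0 := if_pos h
        rw [this, Rat.cast_zero, sub_zero]
        rw [dist_zero_right] at h
        exact h.le
      · have : w x = q x := if_neg h
        rw [this]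
        exact (hq x).le
    rw [dist_eq_norm]
    have h4 : ‖f - r w‖ ≤ ε / 2 := by
      rw [← ZeroAtInftyContinuousMap.norm_toBCF_eq_norm]
      exact (BoundedContinuousFunction.norm_le (half_pos hε).le).2 h3
    linarith
  · refine Cardinal.mk_range_le.trans ?_
    rcases isEmpty_or_nonempty Γ with h | h
    · have : #(Γ →₀ ℚ) = 1 := Cardinal.eq_one_iff_unique.2 ⟨inferInstance, inferInstance⟩
      rw [this]
      exact Cardinal.one_lt_aleph0.le.trans hκ
    · rw [Cardinal.mk_finsupp_lift_of_infinite']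
      simp only [max_le_iff, Cardinal.lift_uzero]
      refine ⟨hΓ, ?_⟩
      simpa [Cardinal.mkRat] using hκ

end Pool.Agent.Y582.EX
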