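import Pool.Agent.W684.Ext2Main
import Pool.Agent.W684.FM.Ambient

/-!
Under Martin's axiom for `κ` dense sets, `κ` any infinite cardinal, `C(ℕ*)` is
`(λ, κ⁺)`-injective for every `λ > 3`. (The proofs follow `Pool.Agent.W684.Poset`,
`Pool.Agent.W684.Inj` and `Pool.Agent.W684.Ext2`, where `κ = ℵ₁`.)
-/

set_option autoImplicit false

namespace Pool.Agent.Y582.EX

open Cardinal Filter Topology Pool.Agent.W684 Pool.Agent.W684.FM
open scoped BoundedContinuousFunction ENNReal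

universe u v w

section

open Finset

variable {J B : Type} {τ : ℕ → J → ℝ} {Nm : J × (B →₀ ℚ) → ℝ} {lam : ℝ}

theorem genericG {κ : Cardinal.{0}} (hκ : ℵ₀ ≤ κ) (hMA : MartinAxiomCard κ) (hJ : #J ≤ κ)
    (hB : #B ≤ κ) (H : Asym τ Nm)
    (hN : ∀ x, 0 < Nm x) (hlam : 3 < lam) :
    ∃ n : J × (B →₀ ℚ) → ℕ, ∀ (k : ℕ) (G : Finset (J × (B →₀ ℚ))), ∃ φ : B → ℝ,
      ∀ x ∈ G, n x ≤ k → |τ k x.1 + ev φ x.2| < lam * Nm x := by
  classical
  have hX : #(J × (B →₀ ℚ)) ≤ κ := by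
    rw [Cardinal.mk_prod, Cardinal.lift_id, Cardinal.lift_id]
    have h1 : #(B →₀ ℚ) ≤ κ := by
      rcases isEmpty_or_nonempty B with h | h
      · have : #(B →₀ ℚ) = 1 := Cardinal.eq_one_iff_unique.2 ⟨inferInstance, inferInstance⟩
        rw [this]
        exact Cardinal.one_lt_aleph0.le.trans hκ
      · rw [Cardinal.mk_finsupp_of_infinite']
        simp only [max_le_iff]
        refine ⟨by simpa using hB, ?_⟩
        rw [Cardinal.mkRat]
        exact hκ
    calc #J * #(B →₀ ℚ) ≤ κ * κ := mul_le_mul' hJ h1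
      _ = κ := Cardinal.mul_eq_self hκ
  obtain ⟨G, hne, hup, hdir, hG⟩ := hMA (Cond τ Nm lam) (ccc H hN hlam)
    (Set.range fun x : J × (B →₀ ℚ) => {q : Cond τ Nm lam | ∃ n, (x, n) ∈ q.1})
    (Cardinal.mk_range_le.trans hX) (by
      rintro D ⟨x, rfl⟩ p
      exact dense H hN (by linarith) x p)
  have hG' : ∀ x : J × (B →₀ ℚ), ∃ n, ∃ p ∈ G, (x, n) ∈ p.1 := by
    intro x
    obtain ⟨p, hp, n, hn⟩ := hG _ ⟨x, rfl⟩
    exact ⟨n, p, hp, hn⟩
  choose n p hp hn using hG'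
  refine ⟨n, fun k S => ?_⟩
  have : ∃ r ∈ G, ∀ x ∈ S, (x, n x) ∈ r.1 := by
    induction S using Finset.induction_on with
    | empty =>
      rcases isEmpty_or_nonempty (J × (B →₀ ℚ)) with h | ⟨⟨x⟩⟩
      · obtain ⟨r, hr⟩ : G.Nonempty := hne
        exact ⟨r, hr, by simp⟩
      · exact ⟨p x, hp x, by simp⟩
    | insert y S _ ih =>
      obtain ⟨r, hr, h⟩ := ih
      obtain ⟨s, hs, h1, h2⟩ := hdir r hr (p y) (hp y)
      refine ⟨s, hs, fun x hx => ?_⟩
      rcases Finset.mem_insert.1 hx with h3 | h3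
      · rw [h3]
        exact h2 (hn y)
      · exact h1 (h x h3)
  obtain ⟨r, -, hr⟩ := this
  obtain ⟨φ, hφ⟩ := r.2 k
  exact ⟨φ, fun x hx hk => hφ (x, n x) (hr x hx) hk⟩

end

section

variable {X : Type u} [NormedAddCommGroup X] [NormedSpace ℝ X] {Ω : Type}

omit [NormedSpace ℝ X] in
theorem exists_denseG (Ω : Type) [Nonempty Ω] (D : Set X) (hD : Dense D)
    (hc : #D ≤ Cardinal.lift.{u} #Ω) :
    ∃ e : Ω → X, DenseRange e := by
  have hne : D.Nonempty := hD.nonempty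
  have h1 : Cardinal.lift.{0} #D ≤ Cardinal.lift.{u} #Ω := by
    simpa using hc
  obtain ⟨i⟩ := Cardinal.lift_mk_le'.1 h1
  have : Nonempty D := hne.to_subtype
  let j : Ω → D := Function.invFun i
  have hj : Function.LeftInverse j i := Function.leftInverse_invFun i.injective
  refine ⟨fun a => (j a : X), ?_⟩
  have h2 : Set.range (fun a => (j a : X)) = D := by
    ext x
    constructor
    · rintro ⟨a, rfl⟩
      exact (j a).2
    · intro hx
      exact ⟨i ⟨x, hx⟩, by simp [hj ⟨x, hx⟩]⟩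
  rw [DenseRange, h2]
  exact hD

theorem exists_dense_subG (e : Ω → X) (he : DenseRange e) (Y : Submodule ℝ X) :
    ∃ g : Ω × ℕ → Y, ∀ (y : Y) (ε : ℝ), 0 < ε → ∃ a, ‖y - g a‖ < ε := by
  classical
  refine ⟨fun p => if h : ∃ y : Y, dist (e p.1) (y : X) < 1 / ((p.2 : ℝ) + 1) then h.choose else 0,
    ?_⟩
  intro y ε hε
  obtain ⟨n, hn⟩ := exists_nat_one_div_lt (half_pos hε)
  obtain ⟨a, ha⟩ := he.exists_dist_lt (y : X) (ε := 1 / ((n : ℝ) + 1)) (by positivity)
  refine ⟨(a, n), ?_⟩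
  have h : ∃ y : Y, dist (e a) (y : X) < 1 / ((n : ℝ) + 1) := ⟨y, by rwa [dist_comm]⟩
  simp only [h, dite_true]
  have h1 := h.choose_spec
  rw [← dist_eq_norm]
  have h2 : dist (y : X) (h.choose : X) < ε := by
    calc dist (y : X) (h.choose : X) ≤ dist (y : X) (e a) + dist (e a) (h.choose : X) :=
          dist_triangle _ _ _
      _ < ε := by linarith
  exact h2

end

section

variable {X : Type u} [NormedAddCommGroup X] [NormedSpace ℝ X]
  {Y : Submodule ℝ X} (t : Y →L[ℝ] (NStar →ᵇ ℝ)) (s : (NStar →ᵇ ℝ) →ₗ[ℝ] (ℕ →ᵇ ℝ)) {Ω : Type}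

variable (e : Ω → X) (g : Ω × ℕ → Y)

/-- the vector attached to a constraint -/
noncomputable def vecG (x : ((Ω × ℕ) × ℕ) × (Ω →₀ ℚ)) : X :=
  (g x.1.1 : X) + x.2.sum fun b c => (c : ℝ) • e b

/-- the bound attached to a constraint (before multiplication with `λ`) -/
noncomputable def bndG (x : ((Ω × ℕ) × ℕ) × (Ω →₀ ℚ)) : ℝ :=
  ‖t‖ * ‖vecG e g x‖ + 1 / ((x.1.2 : ℝ) + 1)

theorem bndG_pos (x : ((Ω × ℕ) × ℕ) × (Ω →₀ ℚ)) : 0 < bndG t e g x := by
  have h1 : 0 ≤ ‖t‖ * ‖vecG e g x‖ := mul_nonneg t.opNorm_nonneg (norm_nonneg _)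
  have h2 : (0 : ℝ) < 1 / ((x.1.2 : ℝ) + 1) := by positivity
  exact add_pos_of_nonneg_of_pos h1 h2

/-- the values of the lifting -/
noncomputable def tauG (k : ℕ) (j : (Ω × ℕ) × ℕ) : ℝ := s (t (g j.1)) k

theorem asymG (hs : ∀ f, NS.quo (s f) = f) : Asym (tauG t s g) (bndG t e g) := by
  classical
  intro G _ c hc
  -- the finite dimensional subspace
  let W : Submodule ℝ X := Submodule.span ℝ (vecG e g '' G)
  have hW : FiniteDimensional ℝ W :=
    FiniteDimensional.span_of_finite ℝ (G.finite_toSet.image _)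
  let U : Submodule ℝ Y := W.comap Y.subtype
  have hU : FiniteDimensional ℝ U := by
    let f : U →ₗ[ℝ] W := LinearMap.codRestrict W (Y.subtype ∘ₗ U.subtype) fun u => u.2
    refine FiniteDimensional.of_injective f ?_
    intro u v huv
    have h1 : ((u : Y) : X) = ((v : Y) : X) := congrArg (Subtype.val : W → X) huv
    exact Subtype.ext (Subtype.ext h1)
  -- the small constant
  obtain ⟨δ, hδ, hδ'⟩ : ∃ δ : ℝ, 0 < δ ∧ ∀ x ∈ G, (‖t‖ + δ) * ‖vecG e g x‖ < c * bndG t e g x := by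
    have h1 : ∀ x ∈ G, ∀ᶠ δ : ℝ in 𝓝[>] 0, (‖t‖ + δ) * ‖vecG e g x‖ < c * bndG t e g x := by
      intro x _
      have h2 : (‖t‖ + 0) * ‖vecG e g x‖ < c * bndG t e g x := by
        have h3 := bndG_pos t e g x
        have h4 : (‖t‖ + 0) * ‖vecG e g x‖ < bndG t e g x := by
          rw [bndG, add_zero]
          have : (0 : ℝ) < 1 / ((x.1.2 : ℝ) + 1) := by positivity
          exact lt_add_of_pos_right _ this
        nlinarith
      have h5 : Tendsto (fun δ : ℝ => (‖t‖ + δ) * ‖vecG e g x‖) (𝓝[>] 0)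
          (𝓝 ((‖t‖ + 0) * ‖vecG e g x‖)) := by
        apply Tendsto.mono_left _ nhdsWithin_le_nhds
        exact ((continuous_const.add continuous_id).mul continuous_const).tendsto _
      exact h5.eventually_lt_const h2
    have h2 : ∀ᶠ δ : ℝ in 𝓝[>] 0, ∀ x ∈ G, (‖t‖ + δ) * ‖vecG e g x‖ < c * bndG t e g x :=
      (Filter.eventually_all_finset G).2 h1
    obtain ⟨δ, h3, h4⟩ := (h2.and self_mem_nhdsWithin).exists
    exact ⟨δ, h4, h3⟩
  obtain ⟨m, hm⟩ := eventually_atTop.1 (eventually_bound t s hs U hδ)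
  refine ⟨m, fun k hk => ?_⟩
  have hk' := hm k hk
  -- the functional on `Y`
  let f : Y →ₗ[ℝ] ℝ :=
    { toFun := fun y => s (t y) k
      map_add' := fun y z => by simp
      map_smul' := fun r y => by simp }
  -- extension by the Hahn-Banach theorem
  let p : Submodule ℝ X := U.map Y.subtype
  have hp : ∀ x : p, ∃ y : Y, y ∈ U ∧ (y : X) = x := by
    rintro ⟨x, hx⟩
    obtain ⟨y, hy, h⟩ := hx
    exact ⟨y, hy, h⟩
  have hpY : ∀ x : p, (x : X) ∈ Y := by
    intro x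
    obtain ⟨y, -, h⟩ := hp x
    rw [← h]
    exact y.2
  let f' : p →ₗ[ℝ] ℝ := f ∘ₗ LinearMap.codRestrict Y p.subtype hpY
  have hf' : ∀ x : p, f' x = s (t ⟨x, hpY x⟩) k := fun x => rfl
  have hC : 0 ≤ ‖t‖ + δ := add_nonneg t.opNorm_nonneg hδ.le
  have hf'b : ∀ x : p, ‖f' x‖ ≤ (‖t‖ + δ) * ‖x‖ := by
    intro x
    rw [hf']
    obtain ⟨y, hy, h⟩ := hp x
    have h1 : (⟨x, hpY x⟩ : Y) = y := Subtype.ext h.symm
    have h2 := hk' y hy
    rw [h1]
    have h3 : ‖y‖ = ‖x‖ := by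
      show ‖(y : X)‖ = ‖(x : X)‖
      rw [h]
    rw [← h3]
    exact h2
  obtain ⟨ρ, hρ1, hρ2⟩ := exists_extension_norm_eq p (f'.mkContinuous _ hf'b)
  have hρ3 : ‖ρ‖ ≤ ‖t‖ + δ := by
    rw [hρ2]
    exact LinearMap.mkContinuous_norm_le _ hC _
  obtain ⟨σ, hσ1, hσ2⟩ := exists_glue Y W f ρ.toLinearMap (by
    intro y hy
    have h1 : (y : X) ∈ p := ⟨y, hy, rfl⟩
    have h2 := hρ1 ⟨(y : X), h1⟩
    exact h2.symm)
  refine ⟨fun b => σ (e b), fun x hx => ?_⟩
  have h1 : tauG t s g k x.1 + ev (fun b => σ (e b)) x.2 = σ (vecG e g x) := by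
    rw [vecG, map_add, hσ1]
    congr 1
    rw [ev, Finsupp.sum, Finsupp.sum, map_sum]
    exact Finset.sum_congr rfl fun b _ => by simp
  rw [h1]
  have h2 : vecG e g x ∈ W := Submodule.subset_span ⟨x, hx, rfl⟩
  rw [hσ2 _ h2]
  calc |ρ (vecG e g x)| ≤ ‖ρ‖ * ‖vecG e g x‖ := ρ.le_opNorm _
    _ ≤ (‖t‖ + δ) * ‖vecG e g x‖ := mul_le_mul_of_nonneg_right hρ3 (norm_nonneg _)
    _ < c * bndG t e g x := hδ' x hx

end

theorem injG (Ω : Type) [Infinite Ω] (hMA : MartinAxiomCard #Ω) {lam : ℝ}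
    (hlam : 3 < lam) :
    IsInjectiveFor.{u} lam (Order.succ (Cardinal.lift.{u} #Ω)) (NStar →ᵇ ℝ) := by
  classical
  intro X _ _ _ hdens Y _ t
  obtain ⟨D, hD, hDc⟩ := hdens
  have hD1 : #D ≤ Cardinal.lift.{u} #Ω := Order.lt_succ_iff.1 hDc
  have hinf : ℵ₀ ≤ #Ω := Cardinal.aleph0_le_mk Ω
  obtain ⟨e, he⟩ := exists_denseG Ω D hD hD1
  obtain ⟨g, hg⟩ := exists_dense_subG e he Y
  obtain ⟨s, hs'⟩ := NS.quo.exists_rightInverse_of_surjective
    (LinearMap.range_eq_top.2 NS.quo_surjective)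
  have hs : ∀ f, NS.quo (s f) = f := fun f => LinearMap.congr_fun hs' f
  have hΩ : #((Ω × ℕ) × ℕ) ≤ #Ω := by
    simp only [Cardinal.mk_prod, Cardinal.lift_id, Cardinal.mk_nat]
    have h1 : #Ω * ℵ₀ = #Ω := Cardinal.mul_aleph0_eq hinf
    rw [h1, h1]
  have hsol := genericG (lam := lam) hinf hMA hΩ le_rfl (asymG t s e g hs) (bndG_pos t e g) hlam
  have hbd : ∀ j, ∃ M : ℝ, ∀ k, |tauG t s g k j| ≤ M := fun j =>
    ⟨‖s (t (g j.1))‖, fun k => (s (t (g j.1))).norm_coe_le_norm k⟩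
  obtain ⟨φ, hφ1, hφ2⟩ := exists_sol hbd hsol
  choose M hM using hφ1
  -- the bounded sequences attached to the points of `ω₁`
  let Φ : Ω → (ℕ →ᵇ ℝ) := fun b => BoundedContinuousFunction.ofNormedAddCommGroup
    (fun k => φ k b) continuous_of_discreteTopology (M b) fun k => hM b k
  have hΦ : ∀ b k, Φ b k = φ k b := fun b k => rfl
  let F : (Y × (Ω →₀ ℝ)) →ₗ[ℝ] (ℕ →ᵇ ℝ) :=
    (s ∘ₗ t.toLinearMap).coprod (Finsupp.linearCombination ℝ Φ)
  let ι : (Y × (Ω →₀ ℝ)) →ₗ[ℝ] X := Y.subtype.coprod (Finsupp.linearCombination ℝ e)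
  have hι : DenseRange ι := by
    apply he.mono
    rintro _ ⟨a, rfl⟩
    exact ⟨(0, Finsupp.single a 1), by simp [ι]⟩
  have hlam0 : 0 ≤ lam := by linarith
  have hbound : ∀ w, ‖(NS.quo ∘ₗ F) w‖ ≤ lam * ‖t‖ * ‖ι w‖ := by
    rintro ⟨y, f⟩
    apply le_of_forall_pos_le_add
    intro ε hε
    -- the approximation parameter
    obtain ⟨η, hη, hη'⟩ : ∃ η : ℝ, 0 < η ∧
        lam * (‖t‖ * (η + η) + η) + ‖t‖ * η + η < ε := by
      have h1 : Tendsto (fun η : ℝ => lam * (‖t‖ * (η + η) + η) + ‖t‖ * η + η) (𝓝[>] 0)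
          (𝓝 (lam * (‖t‖ * (0 + 0) + 0) + ‖t‖ * 0 + 0)) := by
        apply Tendsto.mono_left _ nhdsWithin_le_nhds
        apply Continuous.tendsto
        fun_prop
      have h2 : lam * (‖t‖ * (0 + 0) + 0) + ‖t‖ * 0 + 0 < ε := by simpa using hε
      obtain ⟨η, h3, h4⟩ := ((h1.eventually_lt_const h2).and self_mem_nhdsWithin).exists
      exact ⟨η, h4, h3⟩
    obtain ⟨a, ha⟩ := hg y η hη
    obtain ⟨f0, hf0⟩ := approx_fin (fun b => (e b, Φ b)) f η hη
    obtain ⟨n, hn⟩ := exists_nat_one_div_lt hη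
    obtain ⟨m, hm⟩ := hφ2 ((a, n), f0)
    -- splitting of the norm of the pair
    have hpair : (f.sum fun b c => c • (e b, Φ b)) - (f0.sum fun b c => (c : ℝ) • (e b, Φ b)) =
        (Finsupp.linearCombination ℝ e f - f0.sum fun b c => (c : ℝ) • e b,
          Finsupp.linearCombination ℝ Φ f - f0.sum fun b c => (c : ℝ) • Φ b) := by
      simp only [Finsupp.linearCombination_apply, Finsupp.sum]
      refine Prod.ext ?_ ?_
      · simp [Prod.fst_sum]
      · simp [Prod.snd_sum]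
    rw [hpair, Prod.norm_mk, max_lt_iff] at hf0
    -- the bounded sequence of the approximation
    let G : ℕ →ᵇ ℝ := s (t (g a)) + f0.sum fun b c => (c : ℝ) • Φ b
    have hG : ∀ k, G k = tauG t s g k (a, n) + ev (φ k) f0 := by
      intro k
      simp [G, tauG, ev, Finsupp.sum, hΦ]
    have hG1 : ‖NS.quo G‖ ≤ lam * bndG t e g ((a, n), f0) := by
      apply NS.norm_quo_le (mul_nonneg hlam0 (bndG_pos t e g _).le)
      filter_upwards [eventually_ge_atTop m] with k hk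
      rw [hG]
      exact hm k hk
    have hsplit : (NS.quo ∘ₗ F) (y, f) = NS.quo G + t (y - g a) +
        NS.quo (Finsupp.linearCombination ℝ Φ f - f0.sum fun b c => (c : ℝ) • Φ b) := by
      have h1 : F (y, f) = s (t y) + Finsupp.linearCombination ℝ Φ f := by
        simp [F]
      rw [LinearMap.comp_apply, h1, map_sub t, map_sub NS.quo]
      simp only [G, map_add, hs]
      abel
    rw [hsplit]
    have h2 : ‖t (y - g a)‖ ≤ ‖t‖ * η :=
      (t.le_opNorm _).trans (mul_le_mul_of_nonneg_left ha.le t.opNorm_nonneg)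
    have h3 : ‖NS.quo (Finsupp.linearCombination ℝ Φ f - f0.sum fun b c => (c : ℝ) • Φ b)‖ ≤ η := by
      apply NS.norm_quo_le hη.le
      filter_upwards with k
      exact (BoundedContinuousFunction.norm_coe_le_norm _ k).trans hf0.2.le
    have h4 : ‖vecG e g ((a, n), f0)‖ ≤ ‖ι (y, f)‖ + (η + η) := by
      have h5 : vecG e g ((a, n), f0) = ι (y, f) - ((y - g a : Y) : X) -
          (Finsupp.linearCombination ℝ e f - f0.sum fun b c => (c : ℝ) • e b) := by
        simp only [vecG, ι, LinearMap.coprod_apply, Submodule.subtype_apply,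
          Submodule.coe_sub]
        abel
      rw [h5]
      have h6 : ‖((y - g a : Y) : X)‖ < η := ha
      calc ‖ι (y, f) - ((y - g a : Y) : X) -
          (Finsupp.linearCombination ℝ e f - f0.sum fun b c => (c : ℝ) • e b)‖
          ≤ ‖ι (y, f) - ((y - g a : Y) : X)‖ +
            ‖Finsupp.linearCombination ℝ e f - f0.sum fun b c => (c : ℝ) • e b‖ := norm_sub_le _ _
        _ ≤ ‖ι (y, f)‖ + ‖((y - g a : Y) : X)‖ +
            ‖Finsupp.linearCombination ℝ e f - f0.sum fun b c => (c : ℝ) • e b‖ := by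
              gcongr
              exact norm_sub_le _ _
        _ ≤ ‖ι (y, f)‖ + (η + η) := by linarith [hf0.1]
    have h5 : bndG t e g ((a, n), f0) ≤ ‖t‖ * (‖ι (y, f)‖ + (η + η)) + η := by
      have h6 : ‖t‖ * ‖vecG e g ((a, n), f0)‖ ≤ ‖t‖ * (‖ι (y, f)‖ + (η + η)) :=
        mul_le_mul_of_nonneg_left h4 t.opNorm_nonneg
      have h7 : bndG t e g ((a, n), f0) = ‖t‖ * ‖vecG e g ((a, n), f0)‖ + 1 / ((n : ℝ) + 1) := rfl
      rw [h7]
      linarith
    calc ‖NS.quo G + t (y - g a) +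
        NS.quo (Finsupp.linearCombination ℝ Φ f - f0.sum fun b c => (c : ℝ) • Φ b)‖
        ≤ ‖NS.quo G + t (y - g a)‖ +
          ‖NS.quo (Finsupp.linearCombination ℝ Φ f - f0.sum fun b c => (c : ℝ) • Φ b)‖ :=
          norm_add_le _ _
      _ ≤ ‖NS.quo G‖ + ‖t (y - g a)‖ +
          ‖NS.quo (Finsupp.linearCombination ℝ Φ f - f0.sum fun b c => (c : ℝ) • Φ b)‖ := by
          gcongr
          exact norm_add_le _ _
      _ ≤ lam * (‖t‖ * (‖ι (y, f)‖ + (η + η)) + η) + ‖t‖ * η + η := by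
          have h6 : lam * bndG t e g ((a, n), f0) ≤
              lam * (‖t‖ * (‖ι (y, f)‖ + (η + η)) + η) := mul_le_mul_of_nonneg_left h5 hlam0
          linarith
      _ ≤ lam * ‖t‖ * ‖ι (y, f)‖ + ε := by
          have : lam * (‖t‖ * (‖ι (y, f)‖ + (η + η)) + η) + ‖t‖ * η + η =
              lam * ‖t‖ * ‖ι (y, f)‖ + (lam * (‖t‖ * (η + η) + η) + ‖t‖ * η + η) := by ring
          linarith
  refine ⟨(NS.quo ∘ₗ F).extendOfNorm ι, fun y => ?_, ?_⟩
  · have h1 := LinearMap.extendOfNorm_eq hι ⟨_, hbound⟩ (y, 0)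
    have h2 : ι (y, 0) = (y : X) := by simp [ι]
    rw [h2] at h1
    rw [h1]
    simp [F, hs]
  · exact LinearMap.opNorm_extendOfNorm_le hι (mul_nonneg hlam0 t.opNorm_nonneg) hbound

/-- lifting through a quotient map whose kernel has the extension property -/
theorem liftG (Ω : Type) [Infinite Ω] {Z : Type v} {W : Type w} {Y : Type v} [NormedAddCommGroup Z] [NormedSpace ℝ Z]
    [CompleteSpace Z] [NormedAddCommGroup W] [NormedSpace ℝ W] [CompleteSpace W]
    [NormedAddCommGroup Y] [NormedSpace ℝ Y] [CompleteSpace Y] (q : Z →L[ℝ] W)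
    (hq : Function.Surjective q) (hker : ExtProp.{v, v} (Order.succ (Cardinal.lift.{v} #Ω))
      (LinearMap.ker q.toLinearMap))
    (D : Set Y) (hD : Dense D) (hDc : #D ≤ Cardinal.lift.{v} #Ω) (f : Y →L[ℝ] W) :
    ∃ F : Y →L[ℝ] Z, ∀ y, q (F y) = f y := by
  classical
  obtain ⟨C, hC, hpre⟩ := q.exists_preimage_norm_le hq
  have hinf : ℵ₀ ≤ #Ω := Cardinal.aleph0_le_mk Ω
  obtain ⟨e, he⟩ := exists_denseG Ω D hD hDc
  -- integer combinations
  let c : (Ω →₀ ℤ) →+ Y := (Finsupp.linearCombination ℤ e).toAddMonoidHom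
  let K : AddSubgroup Y := c.range
  have hK : K.topologicalClosure = ⊤ := by
    rw [eq_top_iff]
    intro y _
    have h1 : y ∈ closure (Set.range e) := he y
    have h2 : Set.range e ⊆ (K : Set Y) := by
      rintro _ ⟨a, rfl⟩
      exact ⟨Finsupp.single a 1, by simp [c]⟩
    exact closure_mono h2 h1
  have hz : ∀ y : Y, ∃ z : Z, q z = f y ∧ ‖z‖ ≤ C * ‖f‖ * ‖y‖ := by
    intro y
    obtain ⟨z, h1, h2⟩ := hpre (f y)
    refine ⟨z, h1, h2.trans ?_⟩
    rw [mul_assoc]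
    exact mul_le_mul_of_nonneg_left (f.le_opNorm y) hC.le
  choose z hz1 hz2 using hz
  let s : (Ω →₀ ℤ) → Z × Y := fun k => (z (c k), c k)
  let X : Submodule ℝ (Z × Y) := (Submodule.span ℝ (Set.range s)).topologicalClosure
  have hXc : IsClosed (X : Set (Z × Y)) := Submodule.isClosed_topologicalClosure _
  have hXcomp : CompleteSpace X := hXc.completeSpace_coe
  have hsX : ∀ k, s k ∈ X := fun k =>
    Submodule.le_topologicalClosure _ (Submodule.subset_span ⟨k, rfl⟩)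
  have hXq : ∀ x ∈ X, q x.1 = f x.2 := by
    intro x hx
    have h1 : IsClosed {x : Z × Y | q x.1 = f x.2} :=
      isClosed_eq (q.continuous.comp continuous_fst) (f.continuous.comp continuous_snd)
    have h2 : (Submodule.span ℝ (Set.range s) : Set (Z × Y)) ⊆ {x : Z × Y | q x.1 = f x.2} := by
      intro y hy
      let M : Submodule ℝ (Z × Y) := LinearMap.ker
        ((q.comp (ContinuousLinearMap.fst ℝ Z Y) - f.comp (ContinuousLinearMap.snd ℝ Z Y) :
          Z × Y →L[ℝ] W)).toLinearMap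
      have h3 : Submodule.span ℝ (Set.range s) ≤ M := by
        rw [Submodule.span_le]
        rintro _ ⟨k, rfl⟩
        show q (z (c k)) - f (c k) = 0
        rw [hz1, sub_self]
      have h4 : q y.1 - f y.2 = 0 := h3 hy
      exact sub_eq_zero.1 h4
    exact closure_minimal h2 h1 hx
  -- density
  have hdens : ∃ D' : Set X, Dense D' ∧ #D' < Order.succ (Cardinal.lift.{v} #Ω) := by
    let r : ((Ω →₀ ℤ) →₀ ℚ) → X := fun w => w.sum fun k a => (a : ℝ) • (⟨s k, hsX k⟩ : X)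
    refine ⟨Set.range r, ?_, ?_⟩
    · intro x
      rw [Metric.mem_closure_iff]
      intro ε hε
      have h1 : (x : Z × Y) ∈ closure (Submodule.span ℝ (Set.range s) : Set (Z × Y)) := x.2
      obtain ⟨y, hy, hxy⟩ := Metric.mem_closure_iff.1 h1 (ε / 2) (half_pos hε)
      have hy' : y ∈ Submodule.span ℝ (Set.range s) := hy
      rw [← Set.image_univ, Finsupp.mem_span_image_iff_linearCombination] at hy'
      obtain ⟨l, -, hl⟩ := hy'
      obtain ⟨w, hw⟩ := approx_fin s l (ε / 2) (half_pos hε)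
      refine ⟨r w, ⟨w, rfl⟩, ?_⟩
      have h2 : ((r w : X) : Z × Y) = w.sum fun k a => (a : ℝ) • s k := by
        simp [r, Finsupp.sum]
      have h3 : dist (x : Z × Y) (r w : Z × Y) < ε := by
        have h4 : dist y (r w : Z × Y) < ε / 2 := by
          rw [dist_eq_norm, h2, ← hl, Finsupp.linearCombination_apply]
          exact hw
        calc dist (x : Z × Y) (r w : Z × Y) ≤ dist (x : Z × Y) y + dist y (r w : Z × Y) :=
              dist_triangle _ _ _
          _ < ε := by linarith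
      exact h3
    · have h1 : #((Ω →₀ ℤ) →₀ ℚ) ≤ #Ω := by
        have h2 : #(Ω →₀ ℤ) ≤ #Ω := by
          rw [Cardinal.mk_finsupp_of_infinite']
          simp only [max_le_iff, Cardinal.lift_id, Cardinal.mk_int]
          exact ⟨le_rfl, hinf⟩
        rw [Cardinal.mk_finsupp_of_infinite']
        simp only [max_le_iff, Cardinal.lift_id, Cardinal.mkRat]
        exact ⟨h2, hinf⟩
      have h3 : #(Set.range r) ≤ Cardinal.lift.{v} #((Ω →₀ ℤ) →₀ ℚ) := by
        have := Cardinal.mk_range_le_lift (f := r)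
        simpa using this
      rw [Order.lt_succ_iff]
      exact h3.trans (Cardinal.lift_le.{v}.2 h1)
  -- the projection onto `Y`
  let p : X →L[ℝ] Y := (ContinuousLinearMap.snd ℝ Z Y).comp X.subtypeL
  have hp : Function.Surjective p := by
    let P : NormedAddGroupHom X Y := ⟨p, map_add p, 1, fun x => by
      rw [one_mul]
      exact norm_snd_le (x : Z × Y)⟩
    have h1 : P.SurjectiveOnWith K (C * ‖f‖ + 1) := by
      rintro y ⟨k, rfl⟩
      refine ⟨⟨s k, hsX k⟩, rfl, ?_⟩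
      have h2 := hz2 (c k)
      have h3 : ‖(⟨s k, hsX k⟩ : X)‖ = max ‖z (c k)‖ ‖c k‖ := rfl
      rw [h3, max_le_iff]
      have h4 : 0 ≤ ‖c k‖ := norm_nonneg _
      have h5 : 0 ≤ C * ‖f‖ := mul_nonneg hC.le f.opNorm_nonneg
      constructor
      · nlinarith
      · nlinarith
    have h2 : 0 < C * ‖f‖ + 1 := by
      have h5 : 0 ≤ C * ‖f‖ := mul_nonneg hC.le f.opNorm_nonneg
      linarith
    have h3 := controlled_closure_of_complete h2 one_pos h1
    intro y
    obtain ⟨x, hx, -⟩ := h3 y (by rw [hK]; trivial)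
    exact ⟨x, hx⟩
  let fs : X →L[ℝ] Z := (ContinuousLinearMap.fst ℝ Z Y).comp X.subtypeL
  let Y' : Submodule ℝ X := LinearMap.ker p.toLinearMap
  have hY' : IsClosed (Y' : Set X) := p.isClosed_ker
  let t : Y' →L[ℝ] LinearMap.ker q.toLinearMap :=
    (fs.comp Y'.subtypeL).codRestrict (LinearMap.ker q.toLinearMap) fun x => by
      have h1 : p (x : X) = 0 := x.2
      have h2 := hXq ((x : X) : Z × Y) (x : X).2
      show q ((x : X) : Z × Y).1 = 0
      rw [h2]
      have h3 : ((x : X) : Z × Y).2 = 0 := h1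
      rw [h3, map_zero]
  obtain ⟨T, hT⟩ := hker X hdens Y' hY' t
  obtain ⟨F, hF⟩ := factor p hp (fs - (LinearMap.ker q.toLinearMap).subtypeL.comp T) (by
    intro x hx
    have h1 := hT ⟨x, hx⟩
    show fs x - (T x : Z) = 0
    rw [h1]
    exact sub_self _)
  refine ⟨F, fun y => ?_⟩
  obtain ⟨x, rfl⟩ := hp y
  rw [hF]
  show q (fs x - (T x : Z)) = f (p x)
  rw [map_sub]
  have h1 : q (T x : Z) = 0 := (T x).2
  rw [h1, sub_zero]
  exact hXq x x.2

end Pool.Agent.Y582.EX
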